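import Mathlib
import Pool.Agent.H69.Ivp4

set_option autoImplicit false

namespace Pool.Agent.Results.MP_32cd73_al.NotDense

open Pool.Agent.H69.Ivp

theorem result :
    (∃ t ∈ Set.Icc (0 : ℝ) (1 / 2), ∃ ε : ℝ, 0 < ε ∧ ∀ (G : Type) [Group G] [Finite G],
      ¬ |(Nat.card {x : G // orderOf x = 2} : ℝ) / Nat.card G - t| < ε) ∧
    ∀ δ : ℝ, 0 < δ → (closure {r : ℝ | δ ≤ r ∧ ∃ (G : Type) (_ : Group G) (_ : Finite G),
      r = (Nat.card {x : G // orderOf x = 2} : ℝ) / Nat.card G}).Countable := by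
  have key : ∀ δ : ℝ, 0 < δ → (closure {r : ℝ | δ ≤ r ∧ ∃ (G : Type) (_ : Group G) (_ : Finite G),
      r = (Nat.card {x : G // orderOf x = 2} : ℝ) / Nat.card G}).Countable := by
    intro δ hδ
    obtain ⟨e, he⟩ := exists_nat_gt δ⁻¹
    obtain ⟨T, hT, hT2⟩ := main e
    have hc : IsClosed (Complex.ofReal ⁻¹' T) := hT.1.isClosed.preimage Complex.continuous_ofReal
    refine (hT.2.preimage Complex.ofReal_injective).mono (closure_minimal ?_ hc)
    rintro r ⟨hr, G, _, _, rfl⟩
    have hG : (0 : ℝ) < Nat.card G := by exact_mod_cast Nat.card_pos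
    have := hT2 G (by
      rw [le_div_iff₀ hG] at hr
      have h1 : (Nat.card G : ℝ) ≤ δ⁻¹ * Nat.card {x : G // orderOf x = 2} := by
        rw [le_inv_mul_iff₀ hδ]; exact hr
      have h2 : (Nat.card G : ℝ) ≤ e * Nat.card {x : G // orderOf x = 2} :=
        h1.trans (mul_le_mul_of_nonneg_right he.le (Nat.cast_nonneg _))
      exact_mod_cast h2)
    simpa using this
  refine ⟨?_, key⟩
  by_contra hc
  push Not at hc
  have h8 := key (1 / 8) (by norm_num)
  have hsub : Set.Icc (1 / 4 : ℝ) (1 / 2) ⊆ closure {r : ℝ | 1 / 8 ≤ r ∧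
      ∃ (G : Type) (_ : Group G) (_ : Finite G),
      r = (Nat.card {x : G // orderOf x = 2} : ℝ) / Nat.card G} := by
    intro t ht
    rw [Metric.mem_closure_iff]
    intro ε hε
    obtain ⟨G, _, _, hG⟩ := hc t ⟨by linarith [ht.1], ht.2⟩ (min ε (1 / 8)) (by positivity)
    refine ⟨_, ⟨?_, G, inferInstance, inferInstance, rfl⟩, ?_⟩
    · have := (abs_lt.1 (hG.trans_le (min_le_right _ _))).1
      linarith [ht.1]
    · rw [Real.dist_eq, abs_sub_comm]
      exact hG.trans_le (min_le_left _ _)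
  have h9 := h8.mono hsub
  rw [← Cardinal.le_aleph0_iff_set_countable, Cardinal.mk_Icc_real (by norm_num)] at h9
  exact absurd h9 (not_le.2 Cardinal.aleph0_lt_continuum)

end Pool.Agent.Results.MP_32cd73_al.NotDense
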